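import Mathlib
import Pool.Agent.J6H94.AP.Fin
import Pool.Agent.J6H42.AP.Dec
import Pool.Agent.J6H35.AP.Max
import Pool.Agent.J6H33.AP.Kro
import Pool.Agent.J6H39.AP.Step
import Pool.Agent.J6H22.AP.Lin
import Pool.Agent.J6H98.AP.Pl

/-!
# Normed planes whose circles are Apollonius sets

A normed plane is a projective-metric plane (the straight lines are the geodesics, `d(x,y) + d(y,z) = d(x,z)`
exactly for `y` in the segment `[x,z]`) if and only if its norm is strictly convex. We determine the normed planes
in which the circles are Apollonius sets: only the Euclidean plane. One circle contained in one Apollonius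
set is enough. Nothing is assumed about the smoothness of the norm.

Proof. Let the circle be the unit circle, `‖X - A‖ = r ‖X - B‖` for all unit vectors `X`, `r < 1`. Comparing the
maxima and the minima of both sides, `A = r e`, `B = e / r` for a unit vector `e` (strict convexity). So
`‖x - r ‖x‖ e‖ = ‖r x - ‖x‖ e‖` for all `x`. Let `f` be a supporting functional at `e`, `x₀` in its kernel,
`h(s) = ‖x₀ + s e‖` and `H(s) = h(s)² - s² ≥ 0`. Then
`H(s ± r h(s)) = (1 - r²) H(s) + r² H(s ± h(s) / r)`, and `s ± r h(s) = (1 - r²) s + r² (s ± h(s) / r)`: so three points of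
the graph of `H` are collinear. One shows `h(s) - |s| → 0`, so `H(s) = o(|s|)`, and by a maximum principle `H` has
a maximum `M` and a minimum `m`. The set `H = M` is invariant under maps which are asymptotically `y ↦ y / r` and
`y ↦ y / (1 + r)`; by Kronecker's theorem and a second order estimate (needed when `log(1 + r) / log r` is
rational) it contains arbitrarily large points with ratios of neighbours arbitrarily close to `1`. The set `H = m` is
unbounded. As `h(s) - s` is decreasing, `m ≥ M`. So `h(s)² = s² + M`, and the plane is Euclidean.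
-/

set_option autoImplicit false

namespace Pool.Agent.Results.MP_874adf_gt.NormedPlanes

/-- For a strictly convex normed plane: all circles are Apollonius sets iff one circle is contained in an
Apollonius set iff the plane is Euclidean. -/
theorem result (E : Type) [NormedAddCommGroup E] [NormedSpace ℝ E] [StrictConvexSpace ℝ E]
    (hE : Module.finrank ℝ E = 2) :
    List.TFAE [
      ∀ (F : E) (a : ℝ), 0 < a → ∃ (A B : E) (r : ℝ), A ≠ B ∧ 0 < r ∧ r ≠ 1 ∧
        Metric.sphere F a = {C | dist A C / dist C B = r},
      ∃ (F : E) (a : ℝ), 0 < a ∧ ∃ (A B : E) (r : ℝ), A ≠ B ∧ 0 < r ∧ r ≠ 1 ∧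
        Metric.sphere F a ⊆ {C | dist A C / dist C B = r},
      Nonempty (E ≃ₗᵢ[ℝ] EuclideanSpace ℝ (Fin 2))] := by
  tfae_have 1 → 2 := by
    intro h
    obtain ⟨A, B, r, h1, h2, h3, h4⟩ := h 0 1 one_pos
    exact ⟨0, 1, one_pos, A, B, r, h1, h2, h3, h4.subset⟩
  tfae_have 2 → 3 := by
    rintro ⟨F, a, ha, A, B, r, -, hr, hr1, hs⟩
    exact Pool.Agent.J6H94.AP.euclid hE
      (Pool.Agent.J6H94.AP.plane Pool.Agent.J6H94.AP.dec Pool.Agent.J6H35.AP.aMax
        Pool.Agent.J6H33.AP.kro Pool.Agent.J6H39.AP.step Pool.Agent.J6H22.AP.lin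
        Pool.Agent.J6H98.AP.pl E hE F A B a r ha hr hr1 hs)
  tfae_have 3 → 1 := by
    rintro ⟨f⟩ F a ha
    exact Pool.Agent.J6H94.AP.circles' f F a ha
  tfae_finish

end Pool.Agent.Results.MP_874adf_gt.NormedPlanes
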